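import Pool.Agent.Helper49.OT.Defs
import Pool.Agent.Helper59.OT.Num
import Pool.Agent.Helper49.OT.Mfd

/-!
Piece FRM: the frame (MP_398e1f_an).
-/

open scoped Manifold ContDiff Topology
open Set Filter

noncomputable section

namespace HolPH.OT

namespace Frm

/-! ### the open subset `X` of `C3` -/

theorem extChart_X (x z : X) : extChartAt I3 x z = (z : C3) := rfl

theorem written_val (x : X) (y : C3) :
    writtenInExtChartAt I3 I3 x (Subtype.val : X → C3) y = (((extChartAt I3 x).symm y : X) : C3) :=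
  rfl

theorem val_mfd (x : X) :
    HasMFDerivAt I3 I3 (Subtype.val : X → C3) x (ContinuousLinearMap.id ℂ C3) := by
  refine ⟨continuous_subtype_val.continuousAt, ?_⟩
  have hev : writtenInExtChartAt I3 I3 x (Subtype.val : X → C3) =ᶠ[𝓝[range I3] (extChartAt I3 x x)]
      id := by
    have h1 : ∀ᶠ y in 𝓝[range I3] (extChartAt I3 x x), y ∈ (extChartAt I3 x).target :=
      extChartAt_target_mem_nhdsWithin x
    filter_upwards [h1] with y hy
    have h2 := (extChartAt I3 x).right_inv hy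
    rw [extChart_X] at h2
    rw [written_val, h2]
    rfl
  have h3 : HasFDerivWithinAt (id : C3 → C3) (ContinuousLinearMap.id ℂ C3) (range I3)
      (extChartAt I3 x x) := hasFDerivWithinAt_id _ _
  refine h3.congr_of_eventuallyEq hev ?_
  rw [written_val, (extChartAt I3 x).left_inv (mem_extChartAt_source x)]
  rfl

/-- multiplication as a continuous linear map -/
def mulC (c : C3) : C3 →L[ℂ] C3 := ContinuousLinearMap.mul ℂ C3 c

@[simp] theorem mulC_apply (c w : C3) : mulC c w = c * w := rfl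

theorem affine_mfd (c a : C3) (z : C3) :
    HasMFDerivAt I3 I3 (fun z : C3 => c * z + a) z (mulC c) := by
  have h : HasFDerivAt (fun z : C3 => c * z + a) (mulC c) z :=
    ((mulC c).hasFDerivAt).add_const a
  exact h.hasMFDerivAt

/-- a self map of `X` which is affine in `C3` -/
theorem affine_contMDiff {c a : C3} {φ : X → X} (hφ : ∀ x : X, (φ x : C3) = c * x + a) :
    ContMDiff I3 I3 ∞ φ := by
  rw [← ContMDiff.subtypeVal_comp_iff]
  have h1 : (Subtype.val ∘ φ : X → C3) = (fun z : C3 => c * z + a) ∘ (Subtype.val : X → C3) := by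
    funext x; exact hφ x
  rw [h1]
  have h2 : ContMDiff I3 I3 ∞ (fun z : C3 => c * z + a) := by
    rw [contMDiff_iff_contDiff]
    exact ((mulC c).contDiff).add contDiff_const
  exact h2.comp contMDiff_subtype_val

theorem affine_X_mfd {c a : C3} {φ : X → X} (hφ : ∀ x : X, (φ x : C3) = c * x + a) (x : X) :
    HasMFDerivAt I3 I3 φ x (mulC c) := by
  have hd : MDifferentiableAt I3 I3 φ x :=
    (affine_contMDiff hφ).mdifferentiable (by simp) x
  have h0 := hd.hasMFDerivAt
  have h1 : HasMFDerivAt I3 I3 (Subtype.val ∘ φ : X → C3) x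
      ((ContinuousLinearMap.id ℂ C3).comp (mfderiv I3 I3 φ x)) := (val_mfd (φ x)).comp x h0
  have h2 : (Subtype.val ∘ φ : X → C3) = (fun z : C3 => c * z + a) ∘ (Subtype.val : X → C3) := by
    funext x; exact hφ x
  have h3 : HasMFDerivAt I3 I3 (Subtype.val ∘ φ : X → C3) x
      ((mulC c).comp (ContinuousLinearMap.id ℂ C3)) := by
    rw [h2]
    exact (affine_mfd c a (x : C3)).comp x (val_mfd x)
  have h4 := h1.mfderiv.symm.trans h3.mfderiv
  have h5 : mfderiv I3 I3 φ x = mulC c := by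
    ext1 w
    exact congrArg (fun L : C3 →L[ℂ] C3 => L w) h4
  rw [h5] at h0
  exact h0

/-! ### the projection -/

theorem pr_md (x : X) : MDifferentiableAt I3 I3 pr x :=
  pr_localDiffeomorph.mdifferentiable (by simp) x

/-- the derivative of the projection as an endomorphism of `C3` -/
def P (x : X) : C3 →L[ℂ] C3 := mfderiv I3 I3 pr x

/-- the derivative of the projection as an equivalence -/
def Pe (x : X) : C3 ≃L[ℂ] C3 := (pr_localDiffeomorph x).mfderivToContinuousLinearEquiv (by simp)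

theorem Pe_apply (x : X) (w : C3) : Pe x w = P x w := rfl

theorem P_inj (x : X) : Function.Injective (P x) := (Pe x).injective

theorem P_Pe_symm (x : X) (w : C3) : P x ((Pe x).symm w) = w := (Pe x).apply_symm_apply w

theorem pr_mfd (x : X) : HasMFDerivAt I3 I3 pr x (P x) := (pr_md x).hasMFDerivAt

/-- the derivative of a map of `M` induced by an affine map -/
theorem P_semiconj {c a : C3} {φ : X → X} (hφ : ∀ x : X, (φ x : C3) = c * x + a) {f : M → M}
    (hf : ∀ x, f (pr x) = pr (φ x)) (x : X) (hd : MDifferentiableAt I3 I3 f (pr x)) (w : C3) :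
    P (φ x) (c * w) = (mfderiv I3 I3 f (pr x) (P x w) : C3) := by
  have h1 : HasMFDerivAt I3 I3 (pr ∘ φ) x ((P (φ x)).comp (mulC c)) :=
    (pr_mfd (φ x)).comp x (affine_X_mfd hφ x)
  have h2 : HasMFDerivAt I3 I3 (f ∘ pr) x ((mfderiv I3 I3 f (pr x)).comp (P x)) :=
    hd.hasMFDerivAt.comp x (pr_mfd x)
  have h3 : (f ∘ pr) = pr ∘ φ := funext hf
  rw [h3] at h2
  have h4 := h1.mfderiv.symm.trans h2.mfderiv
  exact congrArg (fun L : C3 →L[ℂ] C3 => L w) h4

theorem P_smul (g : Gam) (x : X) (w : C3) :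
    P (g • x) (((u ^ g.n : C3ˣ) : C3) * w) = P x w := by
  have h := P_semiconj (c := ((u ^ g.n : C3ˣ) : C3)) (a := (g.a : C3)) (φ := fun x : X => g • x)
    (fun x => smul_coe g x) (f := id) (fun x => (pr_smul g x).symm) x mdifferentiableAt_id w
  rw [mfderiv_id] at h
  exact h

/-! ### the weights -/

/-- first weight -/
def n1 (x : C3) (w : C3) : ℝ := (x.1.im)⁻¹ * ‖w.1‖
/-- second weight -/
def n2 (x : C3) (w : C3) : ℝ := x.1.im ^ al2 * ‖w.2.1‖
/-- third weight -/
def n3 (x : C3) (w : C3) : ℝ := x.1.im ^ al3 * ‖w.2.2‖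

theorem im_smul (g : Gam) (x : X) : ((g • x : X) : C3).1.im = U1 ^ g.n * (x : C3).1.im := by
  have h := affine_im 0 g.n (x : C3) g.a.2
  rw [zpow_zero, Units.val_one, one_mul, zpow_zero, one_mul] at h
  rw [smul_coe]
  exact h

theorem im_mulv (x : X) : ((mulv 1 x : X) : C3).1.im = V1 * (x : C3).1.im := by
  have h := affine_im 1 0 (x : C3) (zero_mem Lat)
  rw [zpow_zero, Units.val_one, mul_one, zpow_one, zpow_zero, mul_one, add_zero, zpow_one] at h
  rw [mulv_coe, zpow_one]
  exact h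

theorem norm_u1 (n : ℤ) (w : C3) : ‖(((u ^ n : C3ˣ) : C3) * w).1‖ = U1 ^ n * ‖w.1‖ := by
  rw [Prod.fst_mul, norm_mul, u_zpow_fst, Complex.norm_real,
    Real.norm_of_nonneg (zpow_pos U1_pos n).le]

theorem norm_u2 (n : ℤ) (w : C3) : ‖(((u ^ n : C3ˣ) : C3) * w).2.1‖ = U2 ^ n * ‖w.2.1‖ := by
  rw [Prod.snd_mul, Prod.fst_mul, norm_mul, zpow_snd_fst, norm_zpow]; rfl

theorem norm_u3 (n : ℤ) (w : C3) : ‖(((u ^ n : C3ˣ) : C3) * w).2.2‖ = U3 ^ n * ‖w.2.2‖ := by
  rw [Prod.snd_mul, Prod.snd_mul, norm_mul, zpow_snd_snd, norm_zpow]; rfl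

theorem norm_v1 (w : C3) : ‖((v : C3) * w).1‖ = V1 * ‖w.1‖ := by
  rw [Prod.fst_mul, norm_mul, v_fst, Complex.norm_real, Real.norm_of_nonneg V1_pos.le]

theorem norm_v2 (w : C3) : ‖((v : C3) * w).2.1‖ = V2 * ‖w.2.1‖ := by
  rw [Prod.snd_mul, Prod.fst_mul, norm_mul]; rfl

theorem norm_v3 (w : C3) : ‖((v : C3) * w).2.2‖ = V3 * ‖w.2.2‖ := by
  rw [Prod.snd_mul, Prod.snd_mul, norm_mul]; rfl

theorem zpow_rpow_one {a b : ℝ} (h : U1 ^ a * b = 1) (n : ℤ) : (U1 ^ n) ^ a * b ^ n = 1 := by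
  rw [← Real.rpow_intCast U1 n, ← Real.rpow_mul U1_pos.le, mul_comm (n : ℝ) a,
    Real.rpow_mul U1_pos.le, Real.rpow_intCast, ← mul_zpow, h, one_zpow]

theorem n1_smul (g : Gam) (x : X) (w : C3) :
    n1 (g • x : X) (((u ^ g.n : C3ˣ) : C3) * w) = n1 x w := by
  unfold n1
  rw [im_smul, norm_u1]
  have h := zpow_pos U1_pos g.n
  have hx : 0 < (x : C3).1.im := x.2
  field_simp

theorem n2_smul (g : Gam) (x : X) (w : C3) :
    n2 (g • x : X) (((u ^ g.n : C3ˣ) : C3) * w) = n2 x w := by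
  unfold n2
  rw [im_smul, norm_u2, Real.mul_rpow (zpow_pos U1_pos _).le (le_of_lt x.2)]
  have h := zpow_rpow_one U1_al2 g.n
  linear_combination ((x : C3).1.im ^ al2 * ‖w.2.1‖) * h

theorem n3_smul (g : Gam) (x : X) (w : C3) :
    n3 (g • x : X) (((u ^ g.n : C3ˣ) : C3) * w) = n3 x w := by
  unfold n3
  rw [im_smul, norm_u3, Real.mul_rpow (zpow_pos U1_pos _).le (le_of_lt x.2)]
  have h := zpow_rpow_one U1_al3 g.n
  linear_combination ((x : C3).1.im ^ al3 * ‖w.2.2‖) * h

theorem n1_mulv (x : X) (w : C3) : n1 (mulv 1 x : X) ((v : C3) * w) = n1 x w := by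
  unfold n1
  rw [im_mulv, norm_v1]
  have h := V1_pos
  have hx : 0 < (x : C3).1.im := x.2
  field_simp

theorem n2_mulv (x : X) (w : C3) : n2 (mulv 1 x : X) ((v : C3) * w) = lam * n2 x w := by
  unfold n2 lam
  rw [im_mulv, norm_v2, Real.mul_rpow V1_pos.le (le_of_lt x.2)]
  ring

theorem n3_mulv (x : X) (w : C3) : n3 (mulv 1 x : X) ((v : C3) * w) = lam⁻¹ * n3 x w := by
  unfold n3
  rw [im_mulv, norm_v3, Real.mul_rpow V1_pos.le (le_of_lt x.2), ← lam_inv]
  ring

/-- invariance -/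
theorem n_inv {x x' : X} {w w' : C3} (h : pr x = pr x') (hw : P x w = P x' w') :
    n1 x w = n1 x' w' ∧ n2 x w = n2 x' w' ∧ n3 x w = n3 x' w' := by
  obtain ⟨g, rfl⟩ := pr_eq.1 h
  have h1 : w' = ((u ^ g.n : C3ˣ) : C3) * w := by
    apply P_inj (g • x)
    rw [P_smul, hw]
  rw [h1]
  exact ⟨(n1_smul g x w).symm, (n2_smul g x w).symm, (n3_smul g x w).symm⟩

/-! ### the frame -/

/-- a section of the projection -/
def sec (q : M) : X := (pr_surjective q).choose

theorem pr_sec (q : M) : pr (sec q) = q := (pr_surjective q).choose_spec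

/-- the diagonal linear map with the weights of `x` -/
def Wt (x : X) : C3 ≃ₗ[ℂ] C3 :=
  (LinearEquiv.smulOfNeZero ℂ ℂ (((x : C3).1.im : ℂ)⁻¹)
    (inv_ne_zero (Complex.ofReal_ne_zero.2 (ne_of_gt x.2)))).prodCongr
  ((LinearEquiv.smulOfNeZero ℂ ℂ ((((x : C3).1.im ^ al2 : ℝ)) : ℂ)
    (Complex.ofReal_ne_zero.2 (ne_of_gt (Real.rpow_pos_of_pos x.2 _)))).prodCongr
  (LinearEquiv.smulOfNeZero ℂ ℂ ((((x : C3).1.im ^ al3 : ℝ)) : ℂ)
    (Complex.ofReal_ne_zero.2 (ne_of_gt (Real.rpow_pos_of_pos x.2 _)))))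

theorem Wt_1 (x : X) (w : C3) : ‖(Wt x w).1‖ = n1 x w := by
  change ‖((((x : C3).1.im : ℂ)⁻¹) • w.1)‖ = _
  rw [norm_smul, norm_inv, Complex.norm_real, Real.norm_of_nonneg (le_of_lt x.2)]
  rfl

theorem Wt_2 (x : X) (w : C3) : ‖(Wt x w).2.1‖ = n2 x w := by
  change ‖(((((x : C3).1.im ^ al2 : ℝ)) : ℂ) • w.2.1)‖ = _
  rw [norm_smul, Complex.norm_real, Real.norm_of_nonneg (Real.rpow_nonneg (le_of_lt x.2) _)]
  rfl

theorem Wt_3 (x : X) (w : C3) : ‖(Wt x w).2.2‖ = n3 x w := by
  change ‖(((((x : C3).1.im ^ al3 : ℝ)) : ℂ) • w.2.2)‖ = _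
  rw [norm_smul, Complex.norm_real, Real.norm_of_nonneg (Real.rpow_nonneg (le_of_lt x.2) _)]
  rfl

/-- the frame -/
def L (q : M) : TangentSpace I3 q ≃ₗ[ℂ] C3 :=
  ((Pe (sec q)).symm.toLinearEquiv).trans (Wt (sec q))

theorem L_1 (q : M) (w : TangentSpace I3 q) : ‖(L q w).1‖ = n1 (sec q) ((Pe (sec q)).symm w) :=
  Wt_1 _ _
theorem L_2 (q : M) (w : TangentSpace I3 q) : ‖(L q w).2.1‖ = n2 (sec q) ((Pe (sec q)).symm w) :=
  Wt_2 _ _
theorem L_3 (q : M) (w : TangentSpace I3 q) : ‖(L q w).2.2‖ = n3 (sec q) ((Pe (sec q)).symm w) :=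
  Wt_3 _ _

/-- the frame computed at another preimage -/
theorem L_eq (x : X) (q : M) (h : pr x = q) (w : C3) (w' : TangentSpace I3 q) (hw : P x w = w') :
    ‖(L q w').1‖ = n1 x w ∧ ‖(L q w').2.1‖ = n2 x w ∧ ‖(L q w').2.2‖ = n3 x w := by
  have h1 := n_inv (x := sec q) (x' := x) (w := (Pe (sec q)).symm w') (w' := w)
    ((pr_sec q).trans h.symm) ((P_Pe_symm (sec q) w').trans hw.symm)
  rw [L_1, L_2, L_3]
  exact h1

/-! ### continuity -/

/-- the identification of the tangent bundle of `X` with a subset of a product -/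
theorem continuous_tan : Continuous fun p : TangentBundle I3 X => ((p.1 : C3), (p.2 : C3)) := by
  have h1 : Continuous (tangentMap I3 I3 (Subtype.val : X → C3)) :=
    (contMDiff_subtype_val (n := ω) (I := I3) (U := X)).continuous_tangentMap (by simp)
  have h2 : Continuous fun p : TangentBundle I3 X =>
      tangentBundleModelSpaceHomeomorph I3 (tangentMap I3 I3 (Subtype.val : X → C3) p) :=
    (tangentBundleModelSpaceHomeomorph I3).continuous.comp h1
  have h3 : (fun p : TangentBundle I3 X =>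
      tangentBundleModelSpaceHomeomorph I3 (tangentMap I3 I3 (Subtype.val : X → C3) p)) =
      fun p : TangentBundle I3 X => ((p.1 : C3), (p.2 : C3)) := by
    funext p
    have h4 : mfderiv I3 I3 (Subtype.val : X → C3) p.1 = ContinuousLinearMap.id ℂ C3 :=
      (val_mfd p.1).mfderiv
    change ((p.1 : C3), mfderiv I3 I3 (Subtype.val : X → C3) p.1 p.2) = _
    rw [h4]
    rfl
  rw [h3] at h2
  exact h2

theorem continuous_n1 : Continuous fun p : TangentBundle I3 X => n1 p.1 p.2 := by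
  have h := continuous_tan
  have hx : Continuous fun p : TangentBundle I3 X => ((p.1 : C3)) := continuous_fst.comp h
  have hw : Continuous fun p : TangentBundle I3 X => ((p.2 : C3)) := continuous_snd.comp h
  have him : Continuous fun p : TangentBundle I3 X => (p.1 : C3).1.im :=
    Complex.continuous_im.comp (continuous_fst.comp hx)
  exact (him.inv₀ fun p => ne_of_gt p.1.2).mul (continuous_fst.comp hw).norm

theorem continuous_n2 : Continuous fun p : TangentBundle I3 X => n2 p.1 p.2 := by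
  have h := continuous_tan
  have hx : Continuous fun p : TangentBundle I3 X => ((p.1 : C3)) := continuous_fst.comp h
  have hw : Continuous fun p : TangentBundle I3 X => ((p.2 : C3)) := continuous_snd.comp h
  have him : Continuous fun p : TangentBundle I3 X => (p.1 : C3).1.im :=
    Complex.continuous_im.comp (continuous_fst.comp hx)
  exact (him.rpow_const fun p => Or.inl (ne_of_gt p.1.2)).mul
    (continuous_fst.comp (continuous_snd.comp hw)).norm

theorem continuous_n3 : Continuous fun p : TangentBundle I3 X => n3 p.1 p.2 := by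
  have h := continuous_tan
  have hx : Continuous fun p : TangentBundle I3 X => ((p.1 : C3)) := continuous_fst.comp h
  have hw : Continuous fun p : TangentBundle I3 X => ((p.2 : C3)) := continuous_snd.comp h
  have him : Continuous fun p : TangentBundle I3 X => (p.1 : C3).1.im :=
    Complex.continuous_im.comp (continuous_fst.comp hx)
  exact (him.rpow_const fun p => Or.inl (ne_of_gt p.1.2)).mul
    (continuous_snd.comp (continuous_snd.comp hw)).norm

/-- near a point the norms are given by a local section -/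
theorem local_section (q₀ : M) : ∃ (V : Set M) (σ : M → X), IsOpen V ∧ q₀ ∈ V ∧
    ContinuousOn (tangentMapWithin I3 I3 σ V)
      (Bundle.TotalSpace.proj ⁻¹' V : Set (TangentBundle I3 M)) ∧
    ∀ p : TangentBundle I3 M, p.1 ∈ V →
      ‖(L p.1 p.2).1‖ = n1 (tangentMapWithin I3 I3 σ V p).1 (tangentMapWithin I3 I3 σ V p).2 ∧
      ‖(L p.1 p.2).2.1‖ = n2 (tangentMapWithin I3 I3 σ V p).1 (tangentMapWithin I3 I3 σ V p).2 ∧
      ‖(L p.1 p.2).2.2‖ = n3 (tangentMapWithin I3 I3 σ V p).1 (tangentMapWithin I3 I3 σ V p).2 := by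
  have hl := pr_localDiffeomorph (sec q₀)
  have hs : q₀ ∈ hl.localInverse.source := by
    have := hl.localInverse_mem_source
    rwa [pr_sec] at this
  have hsm := hl.localInverse_contMDiffOn
  refine ⟨hl.localInverse.source, hl.localInverse, hl.localInverse_open_source, hs, ?_, ?_⟩
  · exact hsm.continuousOn_tangentMapWithin (by simp) hl.localInverse_open_source.uniqueMDiffOn
  · rintro ⟨q, w⟩ (hq : q ∈ hl.localInverse.source)
    have hu : UniqueMDiffWithinAt I3 hl.localInverse.source q :=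
      hl.localInverse_open_source.uniqueMDiffOn q hq
    have hpr : pr (hl.localInverse q) = q := hl.localInverse_right_inv hq
    have hd : MDifferentiableWithinAt I3 I3 hl.localInverse hl.localInverse.source q :=
      (hsm q hq).mdifferentiableWithinAt (by simp)
    have h1 : HasMFDerivWithinAt I3 I3 (pr ∘ hl.localInverse) hl.localInverse.source q
        ((P (hl.localInverse q)).comp
          (mfderivWithin I3 I3 hl.localInverse hl.localInverse.source q)) :=
      (pr_mfd (hl.localInverse q)).comp_hasMFDerivWithinAt q hd.hasMFDerivWithinAt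
    have h2 : HasMFDerivWithinAt I3 I3 (pr ∘ hl.localInverse) hl.localInverse.source q
        (ContinuousLinearMap.id ℂ C3) := by
      have h3 : HasMFDerivWithinAt I3 I3 (id : M → M) hl.localInverse.source q
        (ContinuousLinearMap.id ℂ C3) := (hasMFDerivAt_id (I := I3) q).hasMFDerivWithinAt
      exact h3.congr_of_eventuallyEq
        (Filter.eventuallyEq_of_mem self_mem_nhdsWithin fun y hy => hl.localInverse_right_inv hy)
        hpr
    have h3 := (h1.mfderivWithin hu).symm.trans (h2.mfderivWithin hu)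
    have h4 : P (hl.localInverse q)
        (mfderivWithin I3 I3 hl.localInverse hl.localInverse.source q w) = w :=
      congrArg (fun L : C3 →L[ℂ] C3 => L w) h3
    exact L_eq (hl.localInverse q) q hpr _ w h4

end Frm

theorem exists_frame : ∃ L : ∀ x : M, TangentSpace I3 x ≃ₗ[ℂ] C3,
    (Continuous fun p : TangentBundle I3 M => ‖(L p.1 p.2).1‖) ∧
    (Continuous fun p : TangentBundle I3 M => ‖(L p.1 p.2).2.1‖) ∧
    (Continuous fun p : TangentBundle I3 M => ‖(L p.1 p.2).2.2‖) ∧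
    (∀ (x : M) (w : TangentSpace I3 x), ‖(L (F x) (mfderiv I3 I3 F x w)).1‖ = ‖(L x w).1‖) ∧
    (∀ (x : M) (w : TangentSpace I3 x),
      ‖(L (F x) (mfderiv I3 I3 F x w)).2.1‖ = lam * ‖(L x w).2.1‖) ∧
    (∀ (x : M) (w : TangentSpace I3 x),
      ‖(L (F x) (mfderiv I3 I3 F x w)).2.2‖ = lam⁻¹ * ‖(L x w).2.2‖) := by
  have hF : ∀ (x : M) (w : TangentSpace I3 x),
      ‖(Frm.L (F x) (mfderiv I3 I3 F x w)).1‖ = ‖(Frm.L x w).1‖ ∧
      ‖(Frm.L (F x) (mfderiv I3 I3 F x w)).2.1‖ = lam * ‖(Frm.L x w).2.1‖ ∧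
      ‖(Frm.L (F x) (mfderiv I3 I3 F x w)).2.2‖ = lam⁻¹ * ‖(Frm.L x w).2.2‖ := by
    intro q w
    obtain ⟨x, rfl⟩ := pr_surjective q
    have hf : ∀ y : X, F (pr y) = pr (mulv 1 y) := fun y => by rw [F_apply, fm_pr]
    have hd : MDifferentiableAt I3 I3 F (pr x) := F.mdifferentiable (by simp) (pr x)
    have h1 := Frm.P_semiconj (c := (v : C3)) (a := 0) (φ := mulv 1)
      (fun y => by rw [mulv_coe, zpow_one, add_zero]) hf x hd ((Frm.Pe x).symm w)
    have h2 := h1.trans
      (congrArg (fun z : C3 => (mfderiv I3 I3 F (pr x) z : C3)) (Frm.P_Pe_symm x w))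
    obtain ⟨a1, a2, a3⟩ := Frm.L_eq (mulv 1 x) (F (pr x)) (hf x).symm _ _ h2
    obtain ⟨b1, b2, b3⟩ := Frm.L_eq x (pr x) rfl _ w (Frm.P_Pe_symm x w)
    rw [a1, a2, a3, b1, b2, b3, Frm.n1_mulv, Frm.n2_mulv, Frm.n3_mulv]
    exact ⟨rfl, rfl, rfl⟩
  have hc : ∀ p₀ : TangentBundle I3 M,
      ContinuousAt (fun p : TangentBundle I3 M => ‖(Frm.L p.1 p.2).1‖) p₀ ∧
      ContinuousAt (fun p : TangentBundle I3 M => ‖(Frm.L p.1 p.2).2.1‖) p₀ ∧
      ContinuousAt (fun p : TangentBundle I3 M => ‖(Frm.L p.1 p.2).2.2‖) p₀ := by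
    intro p₀
    obtain ⟨V, σ, hV, hp, hcont, hn⟩ := Frm.local_section p₀.1
    have hop : IsOpen (Bundle.TotalSpace.proj ⁻¹' V : Set (TangentBundle I3 M)) :=
      hV.preimage (FiberBundle.continuous_proj C3 (TangentSpace I3))
    have hca : ContinuousAt (tangentMapWithin I3 I3 σ V) p₀ :=
      hcont.continuousAt (hop.mem_nhds hp)
    have hev : ∀ᶠ p in 𝓝 p₀, p.1 ∈ V := hop.mem_nhds hp
    refine ⟨?_, ?_, ?_⟩
    · refine (Frm.continuous_n1.continuousAt.comp hca).congr ?_
      filter_upwards [hev] with p hp'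
      exact (hn p hp').1.symm
    · refine (Frm.continuous_n2.continuousAt.comp hca).congr ?_
      filter_upwards [hev] with p hp'
      exact (hn p hp').2.1.symm
    · refine (Frm.continuous_n3.continuousAt.comp hca).congr ?_
      filter_upwards [hev] with p hp'
      exact (hn p hp').2.2.symm
  refine ⟨Frm.L, ?_, ?_, ?_, fun x w => (hF x w).1, fun x w => (hF x w).2.1,
    fun x w => (hF x w).2.2⟩
  · exact continuous_iff_continuousAt.2 fun p => (hc p).1
  · exact continuous_iff_continuousAt.2 fun p => (hc p).2.1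
  · exact continuous_iff_continuousAt.2 fun p => (hc p).2.2

end HolPH.OT
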